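import Pool.Agent.Helper12.S1.Lat

/-!
The area of a body with S1 data: it is at least half the sum of the two widths in the
directions of the sides of the inscribed parallelogram.
-/

set_option autoImplicit false
namespace Pool.Agent.Helper12.S1
open Pool.Agent.Helper59.Pack MeasureTheory
open scoped ENNReal

private theorem cont_det2_12 (u c : P2) : Continuous fun x : P2 => det2 u (x - c) := by
  simp only [det2, Pi.sub_apply]; fun_prop

private theorem det2_triMap_12 (u c x y z : P2) (s : P2) :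
    det2 u (triMap x y z s - c) = (1 - s 0 - s 1) * det2 u (x - c) + s 0 * det2 u (y - c) +
      s 1 * det2 u (z - c) := by
  simp only [det2, triMap, Pi.sub_apply, Pi.add_apply, Pi.smul_apply, smul_eq_mul]
  ring

theorem S1Data.abs_a_le {Q : Set P2} {c p r : P2} {a : ℝ} (h : S1Data Q c p r a) : |a| ≤ 1 := by
  have h1 := h.hx _ h.q1
  have e : det2 (c + (a • p + r) - c) r = a * det2 p r := by
    simp only [det2, Pi.sub_apply, Pi.add_apply, Pi.smul_apply, smul_eq_mul]; ring
  rw [e, abs_mul, abs_of_pos h.pos] at h1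
  by_contra h2
  push Not at h2
  have := mul_lt_mul_of_pos_right h2 h.pos
  linarith

theorem S1Data.neg {Q : Set P2} {c p r : P2} {a : ℝ} (h : S1Data Q c p r a) :
    S1Data Q c (-p) (-r) a := by
  have e : det2 (-p) (-r) = det2 p r := by simp only [det2, Pi.neg_apply]; ring
  refine ⟨?_, ?_, ?_, ?_, ?_, ?_, ?_⟩
  · rw [e]; exact h.pos
  · intro x hx
    have e2 : det2 (x - c) (-r) = - det2 (x - c) r := by
      simp only [det2, Pi.neg_apply, Pi.sub_apply]; ring
    rw [e, e2, abs_neg]
    exact h.hx x hx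
  · intro x hx
    have e2 : det2 (-p) (x - c) = - det2 p (x - c) := by
      simp only [det2, Pi.neg_apply, Pi.sub_apply]; ring
    rw [e, e2, abs_neg]
    exact h.hy x hx
  · have := h.p2
    rwa [sub_eq_add_neg] at this
  · have := h.p1
    rwa [← sub_neg_eq_add] at this
  · have := h.q2
    convert this using 1
    rw [smul_neg, sub_eq_add_neg, neg_add]
  · have := h.q1
    convert this using 1
    rw [smul_neg, sub_eq_add_neg, neg_add, neg_neg, neg_neg]

/-- The upper half. -/
theorem half {Q : Set P2} (hconv : Convex ℝ Q) (hm : MeasurableSet Q) {c p r : P2} {a : ℝ}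
    (h : S1Data Q c p r a) {x y : P2} (hx : x ∈ Q) (hy : y ∈ Q)
    (hF : det2 p r ≤ det2 ((1 - a) • p - r) (x - c))
    (hG : det2 p r ≤ det2 ((1 + a) • p + r) (y - c)) :
    ENNReal.ofReal ((det2 ((1 - a) • p - r) (x - c) + det2 ((1 + a) • p + r) (y - c)) / 2) ≤
      volume (Q ∩ {z | 0 < det2 p (z - c)}) := by
  have ha := abs_le.1 h.abs_a_le
  have hJ := h.pos
  set J := det2 p r with hJdef
  set F : P2 → ℝ := fun z => det2 ((1 - a) • p - r) (z - c) with hFd
  set G : P2 → ℝ := fun z => det2 ((1 + a) • p + r) (z - c) with hGd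
  set Y : P2 → ℝ := fun z => det2 p (z - c) with hYd
  have hJv : p 0 * r 1 - p 1 * r 0 = J := rfl
  have hcF : Continuous F := cont_det2_12 _ _
  have hcG : Continuous G := cont_det2_12 _ _
  have hcY : Continuous Y := cont_det2_12 _ _
  have hFX : ∀ z, F z = det2 (z - c) r + (1 - a) * Y z := by
    intro z
    simp only [hFd, hYd, det2, Pi.sub_apply, Pi.smul_apply, smul_eq_mul]; ring
  have hGX : ∀ z, G z = - det2 (z - c) r + (1 + a) * Y z := by
    intro z
    simp only [hGd, hYd, det2, Pi.sub_apply, Pi.add_apply, Pi.smul_apply, smul_eq_mul]; ring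
  have hFG : ∀ z, F z + G z = 2 * Y z := by
    intro z; rw [hFX, hGX]; ring
  have F1 : F (c + p) = J := by
    rw [← hJv]; simp only [hFd, det2, Pi.sub_apply, Pi.add_apply, Pi.smul_apply, smul_eq_mul]; ring
  have F2 : F (c + (a • p + r)) = J := by
    rw [← hJv]; simp only [hFd, det2, Pi.sub_apply, Pi.add_apply, Pi.smul_apply, smul_eq_mul]; ring
  have F3 : F (c - p) = -J := by
    rw [← hJv]; simp only [hFd, det2, Pi.sub_apply, Pi.smul_apply, smul_eq_mul]; ring
  have Y1 : Y (c + p) = 0 := by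
    simp only [hYd, det2, Pi.sub_apply, Pi.add_apply]; ring
  have Y3 : Y (c - p) = 0 := by
    simp only [hYd, det2, Pi.sub_apply]; ring
  have Y2 : Y (c + (a • p + r)) = J := by
    rw [← hJv]; simp only [hYd, det2, Pi.sub_apply, Pi.add_apply, Pi.smul_apply, smul_eq_mul]; ring
  have G1 : G (c + p) = -J := by have := hFG (c + p); rw [F1, Y1] at this; linarith
  have G2 : G (c + (a • p + r)) = J := by
    have := hFG (c + (a • p + r)); rw [F2, Y2] at this; linarith
  have G3 : G (c - p) = J := by have := hFG (c - p); rw [F3, Y3] at this; linarith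
  -- the three pieces
  set A₁ := Q ∩ {z | J < F z} with hA₁
  set A₂ := Q ∩ {z | J < G z} with hA₂
  set A₃ := Q ∩ {z | F z < J ∧ G z < J ∧ 0 < Y z} with hA₃
  have hmA₁ : MeasurableSet A₁ := hm.inter (isOpen_lt continuous_const hcF).measurableSet
  have hmA₂ : MeasurableSet A₂ := hm.inter (isOpen_lt continuous_const hcG).measurableSet
  have v₃ : ENNReal.ofReal J ≤ volume A₃ := by
    have e : area2 (c - p) (c + p) (c + (a • p + r)) = 2 * J := by
      rw [← hJv]
      simp only [area2, det2, Pi.sub_apply, Pi.add_apply, Pi.smul_apply, smul_eq_mul]; ring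
    have h1 : |area2 (c - p) (c + p) (c + (a • p + r))| / 2 = J := by
      rw [e, abs_of_pos (by linarith)]; ring
    rw [← h1, ← vol_triMap]
    apply measure_mono
    rintro _ ⟨s, hs, rfl⟩
    refine ⟨triMap_mem hconv h.p2 h.p1 h.q1 hs, ?_⟩
    obtain ⟨s0, s1, s2⟩ := hs
    have eF : F (triMap (c - p) (c + p) (c + (a • p + r)) s) = _ := det2_triMap_12 _ _ _ _ _ _
    have eG : G (triMap (c - p) (c + p) (c + (a • p + r)) s) = _ := det2_triMap_12 _ _ _ _ _ _
    have eY : Y (triMap (c - p) (c + p) (c + (a • p + r)) s) = _ := det2_triMap_12 _ _ _ _ _ _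
    change _ = (1 - s 0 - s 1) * F (c - p) + s 0 * F (c + p) + s 1 * F (c + (a • p + r)) at eF
    change _ = (1 - s 0 - s 1) * G (c - p) + s 0 * G (c + p) + s 1 * G (c + (a • p + r)) at eG
    change _ = (1 - s 0 - s 1) * Y (c - p) + s 0 * Y (c + p) + s 1 * Y (c + (a • p + r)) at eY
    rw [Set.mem_ofPred_eq, eF, eG, eY, F1, F2, F3, G1, G2, G3, Y1, Y2, Y3]
    have h5 : 0 < (1 - s 0 - s 1) * J := mul_pos (by linarith) hJ
    have h6 : 0 < s 0 * J := mul_pos s0 hJ
    have h7 : 0 < s 1 * J := mul_pos s1 hJ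
    refine ⟨by linarith, by linarith, by linarith⟩
  have v₁ : ENNReal.ofReal ((F x - J) / 2) ≤ volume A₁ := by
    rcases hF.lt_or_eq with hlt | heq
    · have e : area2 x (c + p) (c + (a • p + r)) = J - F x := by
        rw [← hJv]
        simp only [hFd, area2, det2, Pi.sub_apply, Pi.add_apply, Pi.smul_apply, smul_eq_mul]; ring
      have h1 : |area2 x (c + p) (c + (a • p + r))| = F x - J := by
        rw [e, abs_of_neg (by linarith)]; ring
      rw [← h1, ← vol_triMap]
      apply measure_mono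
      rintro _ ⟨s, hs, rfl⟩
      refine ⟨triMap_mem hconv hx h.p1 h.q1 hs, ?_⟩
      obtain ⟨s0, s1, s2⟩ := hs
      have eF : F (triMap x (c + p) (c + (a • p + r)) s) = _ := det2_triMap_12 _ _ _ _ _ _
      change _ = (1 - s 0 - s 1) * F x + s 0 * F (c + p) + s 1 * F (c + (a • p + r)) at eF
      rw [Set.mem_ofPred_eq, eF, F1, F2]
      have h5 : 0 < (1 - s 0 - s 1) * (F x - J) := mul_pos (by linarith) (by linarith)
      nlinarith
    · have e : (F x - J) / 2 = 0 := by
        have : F x = J := heq.symm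
        rw [this]; ring
      rw [e]; simp
  have v₂ : ENNReal.ofReal ((G y - J) / 2) ≤ volume A₂ := by
    rcases hG.lt_or_eq with hlt | heq
    · have e : area2 y (c + (a • p + r)) (c - p) = J - G y := by
        rw [← hJv]
        simp only [hGd, area2, det2, Pi.sub_apply, Pi.add_apply, Pi.smul_apply, smul_eq_mul]; ring
      have h1 : |area2 y (c + (a • p + r)) (c - p)| = G y - J := by
        rw [e, abs_of_neg (by linarith)]; ring
      rw [← h1, ← vol_triMap]
      apply measure_mono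
      rintro _ ⟨s, hs, rfl⟩
      refine ⟨triMap_mem hconv hy h.q1 h.p2 hs, ?_⟩
      obtain ⟨s0, s1, s2⟩ := hs
      have eG : G (triMap y (c + (a • p + r)) (c - p) s) = _ := det2_triMap_12 _ _ _ _ _ _
      change _ = (1 - s 0 - s 1) * G y + s 0 * G (c + (a • p + r)) + s 1 * G (c - p) at eG
      rw [Set.mem_ofPred_eq, eG, G2, G3]
      have h5 : 0 < (1 - s 0 - s 1) * (G y - J) := mul_pos (by linarith) (by linarith)
      nlinarith
    · have e : (G y - J) / 2 = 0 := by
        have : G y = J := heq.symm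
        rw [this]; ring
      rw [e]; simp
  -- disjointness
  have yle : ∀ z ∈ Q, Y z ≤ J := fun z hz => (abs_le.1 (h.hy z hz)).2
  have d1 : Disjoint A₃ A₁ := Set.disjoint_left.2 (fun z hz hz' => by
    have h1 := hz.2.1; have h2 : J < F z := hz'.2; linarith)
  have d2 : Disjoint (A₃ ∪ A₁) A₂ := Set.disjoint_left.2 (fun z hz hz' => by
    have h2 : J < G z := hz'.2
    rcases hz with hz | hz
    · have h1 := hz.2.2.1; linarith
    · have h1 : J < F z := hz.2
      have h3 := yle z hz.1
      have h4 := hFG z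
      linarith)
  calc ENNReal.ofReal ((F x + G y) / 2)
      = ENNReal.ofReal J + ENNReal.ofReal ((F x - J) / 2) + ENNReal.ofReal ((G y - J) / 2) := by
        have h1 : J ≤ F x := hF
        have h2 : J ≤ G y := hG
        rw [← ENNReal.ofReal_add hJ.le (by linarith), ← ENNReal.ofReal_add (by linarith)
          (by linarith)]
        congr 1; ring
    _ ≤ volume A₃ + volume A₁ + volume A₂ := by gcongr
    _ = volume (A₃ ∪ A₁ ∪ A₂) := by
        rw [measure_union d2 hmA₂, measure_union d1 hmA₁]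
    _ ≤ volume (Q ∩ {z | 0 < Y z}) := by
        apply measure_mono
        rintro z ((hz | hz) | hz)
        · exact ⟨hz.1, hz.2.2.2⟩
        · refine ⟨hz.1, ?_⟩
          have h1 : J < F z := hz.2
          rw [hFX] at h1
          have h2 := (abs_le.1 (h.hx z hz.1)).2
          have h3 : 0 < (1 - a) * Y z := by linarith
          exact pos_of_mul_pos_right h3 (by linarith)
        · refine ⟨hz.1, ?_⟩
          have h1 : J < G z := hz.2
          rw [hGX] at h1
          have h2 := (abs_le.1 (h.hx z hz.1)).1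
          have h3 : 0 < (1 + a) * Y z := by linarith
          exact pos_of_mul_pos_right h3 (by linarith)

/-- The widths of `Q` in the directions of the sides of the inscribed parallelogram (with upper
bounds), and the area. -/
theorem area2w {Q : Set P2} (hconv : Convex ℝ Q) (hcomp : IsCompact Q) {c p r : P2} {a : ℝ}
    (h : S1Data Q c p r a) :
    ∃ f g : ℝ, 2 * det2 p r ≤ f ∧ 2 * det2 p r ≤ g ∧
      (∀ x ∈ Q, ∀ y ∈ Q, det2 ((1 - a) • p - r) (x - y) ≤ f) ∧
      (∀ x ∈ Q, ∀ y ∈ Q, det2 ((1 + a) • p + r) (x - y) ≤ g) ∧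
      ENNReal.ofReal ((f + g) / 2) ≤ volume Q ∧ f ≤ 2 * det2 p r * (2 - a) ∧
      g ≤ 2 * det2 p r * (2 + a) := by
  have hJ := h.pos
  have hm : MeasurableSet Q := hcomp.isClosed.measurableSet
  have hne : Q.Nonempty := ⟨_, h.p1⟩
  set J := det2 p r with hJdef
  have hJv : p 0 * r 1 - p 1 * r 0 = J := rfl
  set F : P2 → ℝ := fun z => det2 ((1 - a) • p - r) (z - c) with hFd
  set G : P2 → ℝ := fun z => det2 ((1 + a) • p + r) (z - c) with hGd
  have hcF : Continuous F := cont_det2_12 _ _
  have hcG : Continuous G := cont_det2_12 _ _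
  have F1 : F (c + p) = J := by
    rw [← hJv]; simp only [hFd, det2, Pi.sub_apply, Pi.add_apply, Pi.smul_apply, smul_eq_mul]; ring
  have F3 : F (c - p) = -J := by
    rw [← hJv]; simp only [hFd, det2, Pi.sub_apply, Pi.smul_apply, smul_eq_mul]; ring
  have G1 : G (c + p) = -J := by
    rw [← hJv]; simp only [hGd, det2, Pi.sub_apply, Pi.add_apply, Pi.smul_apply, smul_eq_mul]; ring
  have G3 : G (c - p) = J := by
    rw [← hJv]; simp only [hGd, det2, Pi.sub_apply, Pi.add_apply, Pi.smul_apply, smul_eq_mul]; ring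
  obtain ⟨a₁, ha₁, hmax₁⟩ := hcomp.exists_isMaxOn hne hcF.continuousOn
  obtain ⟨a₂, ha₂, hmin₂⟩ := hcomp.exists_isMinOn hne hcF.continuousOn
  obtain ⟨b₁, hb₁, hmaxb⟩ := hcomp.exists_isMaxOn hne hcG.continuousOn
  obtain ⟨b₂, hb₂, hminb⟩ := hcomp.exists_isMinOn hne hcG.continuousOn
  have k1 : ∀ x ∈ Q, F x ≤ F a₁ := fun x hx => hmax₁ hx
  have k2 : ∀ x ∈ Q, F a₂ ≤ F x := fun x hx => hmin₂ hx
  have k3 : ∀ x ∈ Q, G x ≤ G b₁ := fun x hx => hmaxb hx
  have k4 : ∀ x ∈ Q, G b₂ ≤ G x := fun x hx => hminb hx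
  have l1 : J ≤ F a₁ := by rw [← F1]; exact k1 _ h.p1
  have l2 : F a₂ ≤ -J := by rw [← F3]; exact k2 _ h.p2
  have l3 : J ≤ G b₁ := by rw [← G3]; exact k3 _ h.p2
  have l4 : G b₂ ≤ -J := by rw [← G1]; exact k4 _ h.p1
  have up := half hconv hm h ha₁ hb₁ l1 l3
  have hn := h.neg
  have eJ : det2 (-p) (-r) = J := by rw [← hJv]; simp only [det2, Pi.neg_apply]; ring
  have eF : ∀ z, det2 ((1 - a) • (-p) - (-r)) (z - c) = - F z := by
    intro z
    simp only [hFd, det2, Pi.sub_apply, Pi.smul_apply, Pi.neg_apply, smul_eq_mul]; ring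
  have eG : ∀ z, det2 ((1 + a) • (-p) + (-r)) (z - c) = - G z := by
    intro z
    simp only [hGd, det2, Pi.sub_apply, Pi.add_apply, Pi.smul_apply, Pi.neg_apply, smul_eq_mul]
    ring
  have eY : ∀ z, det2 (-p) (z - c) = - det2 p (z - c) := by
    intro z
    simp only [det2, Pi.sub_apply, Pi.neg_apply]
    ring
  have dn := half hconv hm hn ha₂ hb₂ (by rw [eJ, eF]; linarith) (by rw [eJ, eG]; linarith)
  rw [eF, eG] at dn
  have ha := abs_le.1 h.abs_a_le
  have dX : ∀ x ∈ Q, ∀ y ∈ Q, |det2 (x - y) r| ≤ 2 * J := by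
    intro x hx y hy
    have e : det2 (x - y) r = det2 (x - c) r - det2 (y - c) r := by
      simp only [det2, Pi.sub_apply]; ring
    have h1 := abs_le.1 (h.hx x hx)
    have h2 := abs_le.1 (h.hx y hy)
    rw [e, abs_le]
    constructor <;> linarith [h1.1, h1.2, h2.1, h2.2]
  have dY : ∀ x ∈ Q, ∀ y ∈ Q, |det2 p (x - y)| ≤ 2 * J := by
    intro x hx y hy
    have e : det2 p (x - y) = det2 p (x - c) - det2 p (y - c) := by
      simp only [det2, Pi.sub_apply]; ring
    have h1 := abs_le.1 (h.hy x hx)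
    have h2 := abs_le.1 (h.hy y hy)
    rw [e, abs_le]
    constructor <;> linarith [h1.1, h1.2, h2.1, h2.2]
  refine ⟨F a₁ - F a₂, G b₁ - G b₂, by linarith, by linarith, ?_, ?_, ?_, ?_, ?_⟩
  · intro x hx y hy
    have e : det2 ((1 - a) • p - r) (x - y) = F x - F y := by
      simp only [hFd, det2, Pi.sub_apply, Pi.smul_apply, smul_eq_mul]; ring
    rw [e]
    have := k1 x hx
    have := k2 y hy
    linarith
  · intro x hx y hy
    have e : det2 ((1 + a) • p + r) (x - y) = G x - G y := by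
      simp only [hGd, det2, Pi.sub_apply, Pi.add_apply, Pi.smul_apply, smul_eq_mul]; ring
    rw [e]
    have := k3 x hx
    have := k4 y hy
    linarith
  · have hd : Disjoint (Q ∩ {z | 0 < det2 p (z - c)}) (Q ∩ {z | 0 < det2 (-p) (z - c)}) :=
      Set.disjoint_left.2 (fun z hz hz' => by
        have h1 : 0 < det2 p (z - c) := hz.2
        have h2 : 0 < det2 (-p) (z - c) := hz'.2
        rw [eY] at h2
        linarith)
    have hm2 : MeasurableSet (Q ∩ {z | 0 < det2 (-p) (z - c)}) :=
      hm.inter (isOpen_lt continuous_const (cont_det2_12 _ _)).measurableSet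
    calc ENNReal.ofReal ((F a₁ - F a₂ + (G b₁ - G b₂)) / 2)
        = ENNReal.ofReal ((F a₁ + G b₁) / 2) + ENNReal.ofReal ((-F a₂ + -G b₂) / 2) := by
          rw [← ENNReal.ofReal_add (by linarith) (by linarith)]
          congr 1; ring
      _ ≤ volume (Q ∩ {z | 0 < det2 p (z - c)}) + volume (Q ∩ {z | 0 < det2 (-p) (z - c)}) := by
          gcongr
      _ = volume (Q ∩ {z | 0 < det2 p (z - c)} ∪ Q ∩ {z | 0 < det2 (-p) (z - c)}) := by
          rw [measure_union hd hm2]
      _ ≤ volume Q := by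
          apply measure_mono
          rintro z (hz | hz) <;> exact hz.1
  · have e : F a₁ - F a₂ = det2 (a₁ - a₂) r + (1 - a) * det2 p (a₁ - a₂) := by
      simp only [hFd, det2, Pi.sub_apply, Pi.smul_apply, smul_eq_mul]; ring
    have h1 := (abs_le.1 (dX _ ha₁ _ ha₂)).2
    have h2 := mul_le_mul_of_nonneg_left (abs_le.1 (dY _ ha₁ _ ha₂)).2
      (show 0 ≤ 1 - a by linarith [ha.2])
    rw [e]
    linarith
  · have e : G b₁ - G b₂ = -det2 (b₁ - b₂) r + (1 + a) * det2 p (b₁ - b₂) := by
      simp only [hGd, det2, Pi.sub_apply, Pi.add_apply, Pi.smul_apply, smul_eq_mul]; ring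
    have h1 := (abs_le.1 (dX _ hb₁ _ hb₂)).1
    have h2 := mul_le_mul_of_nonneg_left (abs_le.1 (dY _ hb₁ _ hb₂)).2
      (show 0 ≤ 1 + a by linarith [ha.1])
    rw [e]
    linarith

/-- The widths of `Q` in the directions of the sides of the inscribed parallelogram, and the
area. -/
theorem area {Q : Set P2} (hconv : Convex ℝ Q) (hcomp : IsCompact Q) {c p r : P2} {a : ℝ}
    (h : S1Data Q c p r a) :
    ∃ f g : ℝ, 2 * det2 p r ≤ f ∧ 2 * det2 p r ≤ g ∧
      (∀ x ∈ Q, ∀ y ∈ Q, det2 ((1 - a) • p - r) (x - y) ≤ f) ∧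
      (∀ x ∈ Q, ∀ y ∈ Q, det2 ((1 + a) • p + r) (x - y) ≤ g) ∧
      ENNReal.ofReal ((f + g) / 2) ≤ volume Q := by
  obtain ⟨f, g, h1, h2, h3, h4, h5, -, -⟩ := area2w hconv hcomp h
  exact ⟨f, g, h1, h2, h3, h4, h5⟩

end Pool.Agent.Helper12.S1
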