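import Pool.Agent.Helper59.Pack.Averaging

/-!
A convex planar set with a circumscribed parallelogram that touches it in `c ± p` and `c ± q`
(one common centre), where the sides through `c ± q` are parallel to `p`.
-/

set_option autoImplicit false
namespace Pool.Agent.Helper12.S1
open Pool.Agent.Helper59.Pack

/-- `Q` lies in the parallelogram with centre `c` spanned by `p, r` and contains `c ± p` and
`c ± (a p + r)`. -/
structure S1Data (Q : Set P2) (c p r : P2) (a : ℝ) : Prop where
  pos : 0 < det2 p r
  hx : ∀ x ∈ Q, |det2 (x - c) r| ≤ det2 p r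
  hy : ∀ x ∈ Q, |det2 p (x - c)| ≤ det2 p r
  p1 : c + p ∈ Q
  p2 : c - p ∈ Q
  q1 : c + (a • p + r) ∈ Q
  q2 : c - (a • p + r) ∈ Q

end Pool.Agent.Helper12.S1
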