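import Pool.Agent.Helper59.Pack.Planar
import Pool.Agent.Helper12.S1.Defs

/-!
The hexagon lattice given by three strips.
-/

set_option autoImplicit false
namespace Pool.Agent.Helper12.S1
open Pool.Agent.Helper59.Pack

private theorem det2_sub_12 (u x y : P2) : det2 u (x - y) = det2 u x - det2 u y := by
  simp only [det2, Pi.sub_apply]; ring

private theorem strict_12 {Q : Set P2} {u v : P2} {U : ℝ} (hJ : 0 < det2 u v)
    (hU : ∀ x ∈ Q, ∀ y ∈ Q, det2 u (x - y) ≤ U) {x y : P2} (hx : x ∈ interior Q) (hy : y ∈ Q) :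
    det2 u (x - y) < U := by
  have h := lt_of_interior (Q := Q) (g := fun z => det2 u z) (d := (1 / det2 u v) • v)
    (C := U + det2 u y) (by
      intro z s
      have e : det2 u (z + s • (1 / det2 u v) • v) = det2 u z + s * (1 / det2 u v * det2 u v) := by
        simp only [det2, Pi.add_apply, Pi.smul_apply, smul_eq_mul]; ring
      rw [e, one_div, inv_mul_cancel₀ hJ.ne', mul_one])
    (by
      intro z hz
      have := hU z hz y hy
      rw [det2_sub_12] at this
      linarith) hx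
  rw [det2_sub_12]
  linarith

/-- The hexagon lattice given by three strips of directions `u, v, u + v`. -/
theorem hexLat {Q : Set P2} {u v : P2} {U V W : ℝ} (hJ : 0 < det2 u v)
    (hU : ∀ x ∈ Q, ∀ y ∈ Q, det2 u (x - y) ≤ U) (hV : ∀ x ∈ Q, ∀ y ∈ Q, det2 v (x - y) ≤ V)
    (hW : ∀ x ∈ Q, ∀ y ∈ Q, det2 (u + v) (x - y) ≤ W) (hU0 : 0 < U) (hV0 : 0 < V) (hW0 : 0 < W)
    (h1 : U ≤ V + W) (h2 : V ≤ U + W) (h3 : W ≤ U + V) :
    ∃ t₁ t₂ : P2, 0 < det2 t₁ t₂ ∧
      det2 t₁ t₂ = (2 * (U * V + V * W + U * W) - U ^ 2 - V ^ 2 - W ^ 2) / (4 * det2 u v) ∧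
      ∀ m n : ℤ, (m ≠ 0 ∨ n ≠ 0) → ∀ x ∈ interior Q, ∀ y ∈ interior Q,
        x - y ≠ (m : ℝ) • t₁ + (n : ℝ) • t₂ := by
  set J := det2 u v with hJdef
  have hJne : J ≠ 0 := hJ.ne'
  set κ : ℝ := (U + V - W) / 2 with hκ
  have k0 : 0 ≤ κ := by rw [hκ]; linarith
  have kU : κ ≤ U := by rw [hκ]; linarith
  have kV : κ ≤ V := by rw [hκ]; linarith
  have kW : W = U + V - 2 * κ := by rw [hκ]; ring
  set t₁ : P2 := (κ / J) • u + (U / J) • v with ht₁
  set t₂ : P2 := (-(V / J)) • u + (-(κ / J)) • v with ht₂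
  have hJv : u 0 * v 1 - u 1 * v 0 = J := rfl
  have e0 : det2 t₁ t₂ = (U * V - κ ^ 2) / J := by
    have e : det2 t₁ t₂ = (U * V - κ ^ 2) / J ^ 2 * (u 0 * v 1 - u 1 * v 0) := by
      simp only [ht₁, ht₂, det2, Pi.add_apply, Pi.smul_apply, smul_eq_mul]
      field_simp
      ring
    rw [e, hJv]
    field_simp
  have hpos : 0 < U * V - κ ^ 2 := by
    have e : U * V - κ ^ 2 = (U - κ) * (V - κ) + κ * W := by rw [kW]; ring
    rcases k0.lt_or_eq with h | h
    · rw [e]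
      have h4 : 0 ≤ (U - κ) * (V - κ) := mul_nonneg (by linarith) (by linarith)
      have h5 : 0 < κ * W := mul_pos h hW0
      linarith
    · rw [← h]
      have : 0 < U * V := mul_pos hU0 hV0
      linarith
  have eu1 : det2 u t₁ = U := by
    have e : det2 u t₁ = U / J * (u 0 * v 1 - u 1 * v 0) := by
      simp only [ht₁, det2, Pi.add_apply, Pi.smul_apply, smul_eq_mul]
      ring
    rw [e, hJv]
    field_simp
  have eu2 : det2 u t₂ = -κ := by
    have e : det2 u t₂ = -κ / J * (u 0 * v 1 - u 1 * v 0) := by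
      simp only [ht₂, det2, Pi.add_apply, Pi.smul_apply, smul_eq_mul]
      ring
    rw [e, hJv]
    field_simp
  have ev1 : det2 v t₁ = -κ := by
    have e : det2 v t₁ = -κ / J * (u 0 * v 1 - u 1 * v 0) := by
      simp only [ht₁, det2, Pi.add_apply, Pi.smul_apply, smul_eq_mul]
      ring
    rw [e, hJv]
    field_simp
  have ev2 : det2 v t₂ = V := by
    have e : det2 v t₂ = V / J * (u 0 * v 1 - u 1 * v 0) := by
      simp only [ht₂, det2, Pi.add_apply, Pi.smul_apply, smul_eq_mul]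
      ring
    rw [e, hJv]
    field_simp
  refine ⟨t₁, t₂, ?_, ?_, ?_⟩
  · rw [e0]
    exact div_pos hpos hJ
  · rw [e0, hκ]
    field_simp
    ring
  · intro m n hmn x hx y hy hxy
    have lin : ∀ w : P2, det2 w ((m : ℝ) • t₁ + (n : ℝ) • t₂) = m * det2 w t₁ + n * det2 w t₂ := by
      intro w
      simp only [det2, Pi.add_apply, Pi.smul_apply, smul_eq_mul]; ring
    have fu : det2 u (x - y) = m * U - n * κ := by rw [hxy, lin, eu1, eu2]; ring
    have fv : det2 v (x - y) = -m * κ + n * V := by rw [hxy, lin, ev1, ev2]; ring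
    have fw : det2 (u + v) (x - y) = m * (U - κ) + n * (V - κ) := by
      have e : det2 (u + v) (x - y) = det2 u (x - y) + det2 v (x - y) := by
        simp only [det2, Pi.add_apply]; ring
      rw [e, fu, fv]; ring
    have neg : ∀ w : P2, det2 w (y - x) = - det2 w (x - y) := by
      intro w
      simp only [det2, Pi.sub_apply]; ring
    have sx := interior_subset hx
    have sy := interior_subset hy
    have hJ2 : 0 < det2 v (-u) := by
      have e : det2 v (-u) = J := by rw [← hJv]; simp only [det2, Pi.neg_apply]; ring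
      rw [e]; exact hJ
    have hJ3 : 0 < det2 (u + v) v := by
      have e : det2 (u + v) v = J := by rw [← hJv]; simp only [det2, Pi.add_apply]; ring
      rw [e]; exact hJ
    have a1 := strict_12 (v := v) (by rw [← hJdef]; exact hJ) hU hx sy
    have a2 := strict_12 (v := v) (by rw [← hJdef]; exact hJ) hU hy sx
    have b1 := strict_12 hJ2 hV hx sy
    have b2 := strict_12 hJ2 hV hy sx
    have c1 := strict_12 hJ3 hW hx sy
    have c2 := strict_12 hJ3 hW hy sx
    rw [neg, fu] at a2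
    rw [neg, fv] at b2
    rw [neg, fw] at c2
    rw [fu] at a1
    rw [fv] at b1
    rw [fw] at c1
    have key : (1 ≤ m ∧ n ≤ 0) ∨ (m ≤ -1 ∧ 0 ≤ n) ∨ (1 ≤ n ∧ m ≤ 0) ∨ (n ≤ -1 ∧ 0 ≤ m) ∨
        (1 ≤ m ∧ 1 ≤ n) ∨ (m ≤ -1 ∧ n ≤ -1) := by omega
    rcases key with ⟨hm, hn⟩ | ⟨hm, hn⟩ | ⟨hn, hm⟩ | ⟨hn, hm⟩ | ⟨hm, hn⟩ | ⟨hm, hn⟩
    · have hm' : (1 : ℝ) ≤ m := by exact_mod_cast hm
      have hn' : (n : ℝ) ≤ 0 := by exact_mod_cast hn
      nlinarith [mul_nonneg (sub_nonneg.2 hm') hU0.le, mul_nonneg (neg_nonneg.2 hn') k0]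
    · have hm' : (m : ℝ) ≤ -1 := by exact_mod_cast hm
      have hn' : (0 : ℝ) ≤ n := by exact_mod_cast hn
      nlinarith [mul_nonneg (sub_nonneg.2 hm') hU0.le, mul_nonneg hn' k0]
    · have hm' : (m : ℝ) ≤ 0 := by exact_mod_cast hm
      have hn' : (1 : ℝ) ≤ n := by exact_mod_cast hn
      nlinarith [mul_nonneg (sub_nonneg.2 hn') hV0.le, mul_nonneg (neg_nonneg.2 hm') k0]
    · have hm' : (0 : ℝ) ≤ m := by exact_mod_cast hm
      have hn' : (n : ℝ) ≤ -1 := by exact_mod_cast hn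
      nlinarith [mul_nonneg (sub_nonneg.2 hn') hV0.le, mul_nonneg hm' k0]
    · have hm' : (1 : ℝ) ≤ m := by exact_mod_cast hm
      have hn' : (1 : ℝ) ≤ n := by exact_mod_cast hn
      nlinarith [mul_nonneg (sub_nonneg.2 hm') (sub_nonneg.2 kU), mul_nonneg (sub_nonneg.2 hn') (sub_nonneg.2 kV)]
    · have hm' : (m : ℝ) ≤ -1 := by exact_mod_cast hm
      have hn' : (n : ℝ) ≤ -1 := by exact_mod_cast hn
      nlinarith [mul_nonneg (sub_nonneg.2 hm') (sub_nonneg.2 kU), mul_nonneg (sub_nonneg.2 hn') (sub_nonneg.2 kV)]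

end Pool.Agent.Helper12.S1
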