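import Pool.Agent.Helper12.S1.Area

/-!
The two planar facts about a convex body with S1 data: a cheap circumscribed parallelogram
(`para`) and a packing lattice of density at least 3/4 (`latt`).
-/

set_option autoImplicit false
namespace Pool.Agent.Helper12.S1
open Pool.Agent.Helper59.Pack MeasureTheory
open scoped ENNReal

private theorem sq_x_12 {Q : Set P2} {c p r : P2} {a : ℝ} (h : S1Data Q c p r a) :
    ∀ x ∈ Q, ∀ y ∈ Q, det2 (-r) (x - y) ≤ 2 * det2 p r := by
  intro x hx y hy
  have e : det2 (-r) (x - y) = det2 (x - c) r - det2 (y - c) r := by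
    simp only [det2, Pi.sub_apply, Pi.neg_apply]; ring
  have h1 := (abs_le.1 (h.hx x hx)).2
  have h2 := (abs_le.1 (h.hx y hy)).1
  rw [e]
  linarith

private theorem sq_y_12 {Q : Set P2} {c p r : P2} {a : ℝ} (h : S1Data Q c p r a) :
    ∀ x ∈ Q, ∀ y ∈ Q, det2 p (x - y) ≤ 2 * det2 p r := by
  intro x hx y hy
  have e : det2 p (x - y) = det2 p (x - c) - det2 p (y - c) := by
    simp only [det2, Pi.sub_apply]; ring
  have h1 := (abs_le.1 (h.hy x hx)).2
  have h2 := (abs_le.1 (h.hy y hy)).1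
  rw [e]
  linarith

private theorem add_12 (u v w : P2) : det2 (u + v) w = det2 u w + det2 v w := by
  simp only [det2, Pi.add_apply]; ring

/-- A circumscribed parallelogram of area at most `√2` times the area of `Q`. -/
theorem para {Q : Set P2} (hconv : Convex ℝ Q) (hcomp : IsCompact Q) {c p r : P2} {a : ℝ}
    (h : S1Data Q c p r a) :
    ∃ u v : P2, ∃ wu wv : ℝ, 0 < det2 u v ∧
      (∀ x ∈ Q, ∀ y ∈ Q, det2 u (x - y) ≤ wu) ∧ (∀ x ∈ Q, ∀ y ∈ Q, det2 v (x - y) ≤ wv) ∧
      0 ≤ wu ∧ 0 ≤ wv ∧ wu * wv ≤ Real.sqrt 2 * (volume Q).toReal * det2 u v := by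
  have hJ := h.pos
  obtain ⟨f, g, hf, hg, kf, kg, hv⟩ := area hconv hcomp h
  have hfin : volume Q ≠ ∞ := hcomp.measure_lt_top.ne
  have hv' : (f + g) / 2 ≤ (volume Q).toReal := by
    rw [← ENNReal.ofReal_le_iff_le_toReal hfin]
    exact hv
  set J := det2 p r with hJdef
  set V := (volume Q).toReal with hVdef
  have s0 : 0 ≤ Real.sqrt 2 := Real.sqrt_nonneg 2
  have s2 : Real.sqrt 2 * Real.sqrt 2 = 2 := Real.mul_self_sqrt (by norm_num)
  have hV0 : 0 ≤ V := by linarith
  by_cases hc : 4 * J ≤ Real.sqrt 2 * V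
  · refine ⟨-r, p, 2 * J, 2 * J, ?_, sq_x_12 h, sq_y_12 h, by linarith, by linarith, ?_⟩
    · have e : det2 (-r) p = J := by
        simp only [hJdef, det2, Pi.neg_apply]; ring
      rw [e]; exact hJ
    · have e : det2 (-r) p = J := by
        simp only [hJdef, det2, Pi.neg_apply]; ring
      rw [e]
      have := mul_le_mul_of_nonneg_right hc hJ.le
      nlinarith
  · push Not at hc
    have e : det2 ((1 - a) • p - r) ((1 + a) • p + r) = 2 * J := by
      simp only [hJdef, det2, Pi.sub_apply, Pi.add_apply, Pi.smul_apply, smul_eq_mul]; ring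
    refine ⟨(1 - a) • p - r, (1 + a) • p + r, f, g, ?_, kf, kg, by linarith, by linarith, ?_⟩
    · rw [e]; linarith
    · rw [e]
      have h1 : f * g ≤ V * V := by nlinarith [sq_nonneg (f - g)]
      have h2 : 2 * V ≤ 4 * J * Real.sqrt 2 := by
        have := mul_le_mul_of_nonneg_right hc.le s0
        nlinarith
      nlinarith

/-- A packing lattice of density at least `3/4`. -/
theorem latt {Q : Set P2} (hconv : Convex ℝ Q) (hcomp : IsCompact Q) {c p r : P2} {a : ℝ}
    (h : S1Data Q c p r a) :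
    ∃ t₁ t₂ : P2, 0 < det2 t₁ t₂ ∧ ENNReal.ofReal (3 / 4 * det2 t₁ t₂) ≤ volume Q ∧
      ∀ m n : ℤ, (m ≠ 0 ∨ n ≠ 0) → ∀ x ∈ interior Q, ∀ y ∈ interior Q,
        x - y ≠ (m : ℝ) • t₁ + (n : ℝ) • t₂ := by
  have hJ := h.pos
  obtain ⟨f, g, hf, hg, kf, kg, hv⟩ := area hconv hcomp h
  have sx := sq_x_12 h
  have sy := sq_y_12 h
  set J := det2 p r with hJdef
  by_cases hc : 6 * J ≤ f + g
  · have e : det2 (-r) p = J := by
      simp only [hJdef, det2, Pi.neg_apply]; ring
    obtain ⟨t₁, t₂, h1, h2, h3⟩ := hexLat (Q := Q) (u := -r) (v := p) (U := 2 * J) (V := 2 * J)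
      (W := 4 * J) (by rw [e]; exact hJ) sx sy (by
        intro x hx y hy
        rw [add_12]
        have := sx x hx y hy
        have := sy x hx y hy
        linarith) (by linarith) (by linarith) (by linarith) (by linarith) (by linarith)
        (by linarith)
    refine ⟨t₁, t₂, h1, ?_, h3⟩
    refine le_trans (ENNReal.ofReal_le_ofReal ?_) hv
    rw [h2, e]
    have : (2 * (2 * J * (2 * J) + 2 * J * (4 * J) + 2 * J * (4 * J)) - (2 * J) ^ 2 - (2 * J) ^ 2 -
        (4 * J) ^ 2) / (4 * J) = 4 * J := by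
      field_simp
      ring
    rw [this]
    linarith
  · push Not at hc
    have e : det2 ((1 - a) • p - r) ((1 + a) • p + r) = 2 * J := by
      simp only [hJdef, det2, Pi.sub_apply, Pi.add_apply, Pi.smul_apply, smul_eq_mul]; ring
    obtain ⟨t₁, t₂, h1, h2, h3⟩ := hexLat (Q := Q) (u := (1 - a) • p - r) (v := (1 + a) • p + r)
      (U := f) (V := g) (W := 4 * J) (by rw [e]; linarith) kf kg (by
        intro x hx y hy
        have e2 : det2 ((1 - a) • p - r + ((1 + a) • p + r)) (x - y) = 2 * det2 p (x - y) := by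
          simp only [det2, Pi.sub_apply, Pi.add_apply, Pi.smul_apply, smul_eq_mul]; ring
        rw [e2]
        have := sy x hx y hy
        linarith) (by linarith) (by linarith) (by linarith) (by linarith) (by linarith)
        (by linarith)
    refine ⟨t₁, t₂, h1, ?_, h3⟩
    refine le_trans (ENNReal.ofReal_le_ofReal ?_) hv
    rw [h2, e]
    have h8 : (0 : ℝ) < 4 * (2 * J) := by linarith
    rw [mul_div_assoc', div_le_iff₀ h8]
    nlinarith [sq_nonneg (f - g), mul_pos hJ (sub_pos.2 hc)]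

end Pool.Agent.Helper12.S1
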