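import Pool.Agent.Helper12.S1.Area

/-!
A packing lattice of density at least `(4 + √2) / 7` for a convex body with S1 data.
-/

set_option autoImplicit false
namespace Pool.Agent.Helper12.S1
open Pool.Agent.Helper59.Pack MeasureTheory
open scoped ENNReal

private theorem core_12 {b c α β q : ℝ} (hb : 0 ≤ b) (hc : 0 ≤ c) (hbc : b + c = 2)
    (hα : 0 ≤ α) (hαb : α ≤ b) (hβ : 0 ≤ β) (hβc : β ≤ c) (hq : q = (4 - Real.sqrt 2) / 2) :
    2 + 2 * (α + β) - (α - β) ^ 2 / 2 ≤ q * (2 + (α + β)) ∨ 4 ≤ q * (2 + (α + β)) ∨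
      (0 < b ∧ 4 - (b - α) ^ 2 / b ≤ q * (2 + (α + β))) ∨
      (0 < c ∧ 4 - (c - β) ^ 2 / c ≤ q * (2 + (α + β))) := by
  have s0 : 0 ≤ Real.sqrt 2 := Real.sqrt_nonneg 2
  have s2 : Real.sqrt 2 ^ 2 = 2 := Real.sq_sqrt (by norm_num)
  set w := Real.sqrt 2 with hw
  have w1 : 1 < w := by nlinarith
  have w2 : w < 3 / 2 := by nlinarith
  rcases le_or_gt (α + β) (2 * w - 2) with hs | hs
  · left
    have h1 : 0 ≤ (α - β) ^ 2 / 2 := by positivity
    have h2 : 2 + 2 * (α + β) ≤ q * (2 + (α + β)) := by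
      rw [hq]
      have h3 : w * (α + β) ≤ w * (2 * w - 2) := mul_le_mul_of_nonneg_left hs s0
      nlinarith
    linarith
  · right
    rcases le_or_gt 4 (q * (2 + (α + β))) with h4 | h4
    · left; exact h4
    · right
      set τ := 4 - q * (2 + (α + β)) with hτ
      have τ0 : 0 < τ := by rw [hτ]; linarith
      have key : 4 * τ ≤ (2 - (α + β)) ^ 2 := by
        rw [hτ, hq]
        have h5 : 0 ≤ (α + β - (2 * w - 2)) * ((α + β) + 2) := by
          apply mul_nonneg <;> linarith
        nlinarith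
      by_contra hno
      push Not at hno
      obtain ⟨n1, n2⟩ := hno
      have e1 : 2 - (α + β) = (b - α) + (c - β) := by linarith
      rcases hb.lt_or_eq with hb' | hb'
      · rcases hc.lt_or_eq with hc' | hc'
        · have m1 := n1 hb'
          have m2 := n2 hc'
          have m1' : (b - α) ^ 2 < τ * b := by
            rw [← div_lt_iff₀ hb', hτ]; linarith
          have m2' : (c - β) ^ 2 < τ * c := by
            rw [← div_lt_iff₀ hc', hτ]; linarith
          rw [e1] at key
          have h6 : ((b - α) + (c - β)) ^ 2 * (b * c) ≤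
              ((b - α) ^ 2 * c + (c - β) ^ 2 * b) * (b + c) := by
            nlinarith [sq_nonneg ((b - α) * c - (c - β) * b)]
          have h7 : (b - α) ^ 2 * c < τ * b * c := mul_lt_mul_of_pos_right m1' hc'
          have h8 : (c - β) ^ 2 * b < τ * c * b := mul_lt_mul_of_pos_right m2' hb'
          have h9 : 4 * τ * (b * c) ≤ ((b - α) + (c - β)) ^ 2 * (b * c) :=
            mul_le_mul_of_nonneg_right key (by positivity)
          rw [hbc] at h6
          nlinarith
        · have hb2 : b = 2 := by linarith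
          have m1 := n1 hb'
          have m1' : (b - α) ^ 2 < τ * b := by
            rw [← div_lt_iff₀ hb', hτ]; linarith
          have hβ0 : β = 0 := by linarith
          rw [e1, ← hc', hβ0, sub_zero, add_zero] at key
          rw [hb2] at m1' key
          linarith
      · have hc2 : c = 2 := by linarith
        have m2 := n2 (by linarith)
        have m2' : (c - β) ^ 2 < τ * c := by
          rw [← div_lt_iff₀ (by linarith : 0 < c), hτ]; linarith
        have hα0 : α = 0 := by linarith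
        rw [e1, ← hb', hα0, sub_zero, zero_add] at key
        rw [hc2] at m2' key
        linarith

private theorem sq_x2_12 {Q : Set P2} {c p r : P2} {a : ℝ} (h : S1Data Q c p r a) :
    ∀ x ∈ Q, ∀ y ∈ Q, det2 (-r) (x - y) ≤ 2 * det2 p r := by
  intro x hx y hy
  have e : det2 (-r) (x - y) = det2 (x - c) r - det2 (y - c) r := by
    simp only [det2, Pi.sub_apply, Pi.neg_apply]; ring
  have h1 := (abs_le.1 (h.hx x hx)).2
  have h2 := (abs_le.1 (h.hx y hy)).1
  rw [e]
  linarith

private theorem sq_x3_12 {Q : Set P2} {c p r : P2} {a : ℝ} (h : S1Data Q c p r a) :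
    ∀ x ∈ Q, ∀ y ∈ Q, det2 r (x - y) ≤ 2 * det2 p r := by
  intro x hx y hy
  have e : det2 r (x - y) = det2 (-r) (y - x) := by
    simp only [det2, Pi.sub_apply, Pi.neg_apply]; ring
  rw [e]
  exact sq_x2_12 h y hy x hx

private theorem sq_y2_12 {Q : Set P2} {c p r : P2} {a : ℝ} (h : S1Data Q c p r a) :
    ∀ x ∈ Q, ∀ y ∈ Q, det2 p (x - y) ≤ 2 * det2 p r := by
  intro x hx y hy
  have e : det2 p (x - y) = det2 p (x - c) - det2 p (y - c) := by
    simp only [det2, Pi.sub_apply]; ring
  have h1 := (abs_le.1 (h.hy x hx)).2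
  have h2 := (abs_le.1 (h.hy y hy)).1
  rw [e]
  linarith

private theorem add2_12 (u v w : P2) : det2 (u + v) w = det2 u w + det2 v w := by
  simp only [det2, Pi.add_apply]; ring

private theorem smul2_12 (t : ℝ) (v w : P2) : det2 (t • v) w = t * det2 v w := by
  simp only [det2, Pi.smul_apply, smul_eq_mul]; ring

/-- A packing lattice of density at least `(4 + √2) / 7 = 0.7734...`. -/
theorem latt2 {Q : Set P2} (hconv : Convex ℝ Q) (hcomp : IsCompact Q) {c p r : P2} {a : ℝ}
    (h : S1Data Q c p r a) :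
    ∃ t₁ t₂ : P2, 0 < det2 t₁ t₂ ∧
      ENNReal.ofReal ((4 + Real.sqrt 2) / 7 * det2 t₁ t₂) ≤ volume Q ∧
      ∀ m n : ℤ, (m ≠ 0 ∨ n ≠ 0) → ∀ x ∈ interior Q, ∀ y ∈ interior Q,
        x - y ≠ (m : ℝ) • t₁ + (n : ℝ) • t₂ := by
  have hJ := h.pos
  have ha := abs_le.1 h.abs_a_le
  obtain ⟨f, g, hf, hg, kf, kg, hv, hf2, hg2⟩ := area2w hconv hcomp h
  have sx := sq_x2_12 h
  have sx' := sq_x3_12 h
  have sy := sq_y2_12 h
  set J := det2 p r with hJdef
  have s0 : 0 ≤ Real.sqrt 2 := Real.sqrt_nonneg 2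
  have s2 : Real.sqrt 2 ^ 2 = 2 := Real.sq_sqrt (by norm_num)
  have hfin : ∀ D : ℝ, D ≤ (4 - Real.sqrt 2) / 2 * ((f + g) / 2) →
      ENNReal.ofReal ((4 + Real.sqrt 2) / 7 * D) ≤ volume Q := by
    intro D hD
    refine le_trans (ENNReal.ofReal_le_ofReal ?_) hv
    calc (4 + Real.sqrt 2) / 7 * D ≤
        (4 + Real.sqrt 2) / 7 * ((4 - Real.sqrt 2) / 2 * ((f + g) / 2)) :=
          mul_le_mul_of_nonneg_left hD (by positivity)
      _ = (16 - Real.sqrt 2 ^ 2) / 14 * ((f + g) / 2) := by ring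
      _ = (f + g) / 2 := by rw [s2]; ring
  set α := f / (2 * J) - 1 with hα
  set β := g / (2 * J) - 1 with hβ
  have ef : f = 2 * J * (1 + α) := by rw [hα]; field_simp; ring
  have eg : g = 2 * J * (1 + β) := by rw [hβ]; field_simp; ring
  have efg : (f + g) / 2 = J * (2 + (α + β)) := by rw [ef, eg]; ring
  rw [efg] at hfin
  have α0 : 0 ≤ α := by
    rw [hα, sub_nonneg, le_div_iff₀ (by linarith)]; linarith
  have β0 : 0 ≤ β := by
    rw [hβ, sub_nonneg, le_div_iff₀ (by linarith)]; linarith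
  have αb : α ≤ 1 - a := by
    rw [hα, sub_le_iff_le_add, div_le_iff₀ (by linarith)]; linarith
  have βb : β ≤ 1 + a := by
    rw [hβ, sub_le_iff_le_add, div_le_iff₀ (by linarith)]; linarith
  clear_value α β
  subst ef eg
  have hcore := core_12 (b := 1 - a) (c := 1 + a) (by linarith [ha.2]) (by linarith [ha.1])
    (by ring) α0 αb β0 βb (q := (4 - Real.sqrt 2) / 2) rfl
  set q := (4 - Real.sqrt 2) / 2 with hq
  rcases hcore with h2 | h4 | ⟨hb, h3⟩ | ⟨hb, h3⟩
  · -- the hexagon of `F`, `G`, `Y`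
    have e : det2 ((1 - a) • p - r) ((1 + a) • p + r) = 2 * J := by
      simp only [hJdef, det2, Pi.sub_apply, Pi.add_apply, Pi.smul_apply, smul_eq_mul]; ring
    have hJα : 0 ≤ J * α := mul_nonneg hJ.le α0
    have hJβ : 0 ≤ J * β := mul_nonneg hJ.le β0
    have hJα2 : J * α ≤ J * 2 := mul_le_mul_of_nonneg_left (by linarith [ha.1]) hJ.le
    have hJβ2 : J * β ≤ J * 2 := mul_le_mul_of_nonneg_left (by linarith [ha.2]) hJ.le
    obtain ⟨t₁, t₂, k1, k2, k3⟩ := hexLat (Q := Q) (u := (1 - a) • p - r) (v := (1 + a) • p + r)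
      (U := 2 * J * (1 + α)) (V := 2 * J * (1 + β)) (W := 4 * J) (by rw [e]; linarith) kf kg (by
        intro x hx y hy
        have e2 : det2 ((1 - a) • p - r + ((1 + a) • p + r)) (x - y) = 2 * det2 p (x - y) := by
          simp only [det2, Pi.sub_apply, Pi.add_apply, Pi.smul_apply, smul_eq_mul]; ring
        rw [e2]
        have := sy x hx y hy
        linarith) (by positivity) (by positivity) (by linarith) (by linarith) (by linarith)
        (by linarith)
    refine ⟨t₁, t₂, k1, hfin _ ?_, k3⟩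
    rw [k2, e]
    have e3 : (2 * (2 * J * (1 + α) * (2 * J * (1 + β)) + 2 * J * (1 + β) * (4 * J) +
        2 * J * (1 + α) * (4 * J)) - (2 * J * (1 + α)) ^ 2 - (2 * J * (1 + β)) ^ 2 -
        (4 * J) ^ 2) / (4 * (2 * J)) = J * (2 + 2 * (α + β) - (α - β) ^ 2 / 2) := by
      field_simp
      ring
    rw [e3]
    calc J * (2 + 2 * (α + β) - (α - β) ^ 2 / 2) ≤ J * (q * (2 + (α + β))) :=
          mul_le_mul_of_nonneg_left h2 hJ.le
      _ = q * (J * (2 + (α + β))) := by ring
  · -- the square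
    have e : det2 (-r) p = J := by
      simp only [hJdef, det2, Pi.neg_apply]; ring
    obtain ⟨t₁, t₂, k1, k2, k3⟩ := hexLat (Q := Q) (u := -r) (v := p) (U := 2 * J) (V := 2 * J)
      (W := 4 * J) (by rw [e]; exact hJ) sx sy (by
        intro x hx y hy
        rw [add2_12]
        have := sx x hx y hy
        have := sy x hx y hy
        linarith) (by linarith) (by linarith) (by linarith) (by linarith) (by linarith)
        (by linarith)
    refine ⟨t₁, t₂, k1, hfin _ ?_, k3⟩
    rw [k2, e]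
    have e3 : (2 * (2 * J * (2 * J) + 2 * J * (4 * J) + 2 * J * (4 * J)) - (2 * J) ^ 2 -
        (2 * J) ^ 2 - (4 * J) ^ 2) / (4 * J) = J * 4 := by
      field_simp
      ring
    rw [e3]
    calc J * 4 ≤ J * (q * (2 + (α + β))) := mul_le_mul_of_nonneg_left h4 hJ.le
      _ = q * (J * (2 + (α + β))) := by ring
  · -- the hexagon of `X`, `Y`, `F`
    have e : det2 (-r) ((1 - a) • p) = (1 - a) * J := by
      simp only [hJdef, det2, Pi.neg_apply, Pi.smul_apply, smul_eq_mul]; ring
    have hJα : 0 ≤ J * α := mul_nonneg hJ.le α0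
    have hJα2 : J * α ≤ J * (1 - a) := mul_le_mul_of_nonneg_left αb hJ.le
    obtain ⟨t₁, t₂, k1, k2, k3⟩ := hexLat (Q := Q) (u := -r) (v := (1 - a) • p)
      (U := 2 * J) (V := 2 * J * (1 - a)) (W := 2 * J * (1 + α))
      (by rw [e]; exact mul_pos hb hJ) sx (by
        intro x hx y hy
        rw [smul2_12]
        have := mul_le_mul_of_nonneg_left (sy x hx y hy) hb.le
        linarith) (by
        intro x hx y hy
        have e2 : -r + (1 - a) • p = (1 - a) • p - r := by abel
        rw [e2]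
        exact kf x hx y hy) (by linarith) (by positivity) (by positivity)
        (by nlinarith) (by nlinarith) (by nlinarith)
    refine ⟨t₁, t₂, k1, hfin _ ?_, k3⟩
    rw [k2, e]
    have e3 : (2 * (2 * J * (2 * J * (1 - a)) + 2 * J * (1 - a) * (2 * J * (1 + α)) +
        2 * J * (2 * J * (1 + α))) - (2 * J) ^ 2 - (2 * J * (1 - a)) ^ 2 -
        (2 * J * (1 + α)) ^ 2) / (4 * ((1 - a) * J)) =
        J * (4 - (1 - a - α) ^ 2 / (1 - a)) := by
      have hb' : 1 - a ≠ 0 := hb.ne'
      field_simp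
      ring
    rw [e3]
    calc J * (4 - (1 - a - α) ^ 2 / (1 - a)) ≤ J * (q * (2 + (α + β))) :=
          mul_le_mul_of_nonneg_left h3 hJ.le
      _ = q * (J * (2 + (α + β))) := by ring
  · -- the hexagon of `X`, `Y`, `G`
    have e : det2 ((1 + a) • p) r = (1 + a) * J := by
      simp only [hJdef, det2, Pi.smul_apply, smul_eq_mul]; ring
    have hJβ : 0 ≤ J * β := mul_nonneg hJ.le β0
    have hJβ2 : J * β ≤ J * (1 + a) := mul_le_mul_of_nonneg_left βb hJ.le
    obtain ⟨t₁, t₂, k1, k2, k3⟩ := hexLat (Q := Q) (u := (1 + a) • p) (v := r)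
      (U := 2 * J * (1 + a)) (V := 2 * J) (W := 2 * J * (1 + β))
      (by rw [e]; exact mul_pos hb hJ) (by
        intro x hx y hy
        rw [smul2_12]
        have := mul_le_mul_of_nonneg_left (sy x hx y hy) hb.le
        linarith) sx' kg (by positivity) (by linarith) (by positivity)
        (by nlinarith) (by nlinarith) (by nlinarith)
    refine ⟨t₁, t₂, k1, hfin _ ?_, k3⟩
    rw [k2, e]
    have e3 : (2 * (2 * J * (1 + a) * (2 * J) + 2 * J * (2 * J * (1 + β)) +
        2 * J * (1 + a) * (2 * J * (1 + β))) - (2 * J * (1 + a)) ^ 2 - (2 * J) ^ 2 -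
        (2 * J * (1 + β)) ^ 2) / (4 * ((1 + a) * J)) =
        J * (4 - (1 + a - β) ^ 2 / (1 + a)) := by
      have hb' : 1 + a ≠ 0 := hb.ne'
      field_simp
      ring
    rw [e3]
    calc J * (4 - (1 + a - β) ^ 2 / (1 + a)) ≤ J * (q * (2 + (α + β))) :=
          mul_le_mul_of_nonneg_left h3 hJ.le
      _ = q * (J * (2 + (α + β))) := by ring

end Pool.Agent.Helper12.S1
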